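import Pool.Agent.Lib.MP_1e3e9c_agF.I4
import Pool.Agent.Lib.MP_1e3e9c_agF.L4
import Pool.Agent.Lib.MP_1e3e9c_agF.LG
import Pool.Agent.Lib.MP_1e3e9c_agR.HR

/-!
# Hyperbolic covers of smooth varieties `Y` with `K_Y` a multiple of `O(1)`, and their limits, have an ample canonical bundle

`k` and `F` are fields, `F` is algebraically closed of characteristic zero. The coordinates of the weighted projective space
`P(w)`, `w = (w_0, ..., w_n)`, are the vectors `x ≠ 0` of `k^(n+1)`, two of them being coordinates of the same point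
if `y_i = a^(w_i) x_i` for some `a ≠ 0` (`Same`). `Y` is the common zero set in `P(w)` of a set `S` of weighted homogeneous
polynomials, of dimension `n - c`, `L = O(b)`, `b ≥ 1`, and `X` is the common zero set in `P(b, w)`, with the
coordinates `t, x_0, ..., x_n`, of `S` and of `E(t, x)`, weighted homogeneous of weight `r b`, `r ≥ 2`: if
`E = t^r + a_1(x) t^(r-1) + ... + a_r(x)`, then `X` is a cover of `Y` with `r` sheets in the total space of the line bundle `L`, for
example the cyclic cover `t^r = a(x)`.

`Y` is *smooth of codimension `c`* (`IsSmooth`) if at each of its points `Y` is given by `c` of its equations, with linearly independent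
gradients (`IsSmoothAt`), and the weights of the nonzero coordinates of the point have no common divisor (so `O(1)` is a
line bundle on `Y`; if all weights are `1` this is no condition). Every smooth projective variety `Y` with an ample line bundle `L` is of this
form, with `L = O(1)`, `b = 1`: `P(w)` contains `Y = Proj ⊕ H^0(Y, m L)`, and the cone over `Y` without its vertex is the total space of
`L⁻¹` without the zero section.

`HasNormalDegree w S c e`: the determinant of the normal bundle of `Y` is `O(e)`, that is (adjunction formula) `K_Y = O(e - ∑ w_i)`. The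
determinant of the conormal bundle is spanned at a point `x` of `Y` by `dP_1 ∧ ... ∧ dP_c`, for `c` equations `P_1, ..., P_c` with
independent gradients at `x`, whose components are the minors of their Jacobian matrix (`minor`). It is isomorphic to `O(-e)` if and only
if there are sections `ψ_j` (polynomials of weight `e - w_(j_1) - ... - w_(j_c)`) of the twisted components without common zero such that
`(ψ_j)_j` is proportional to the vector of these minors at all points `x`. If `Y` is embedded by the section ring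
`⊕ H^0(Y, m L)` as above, so that the sections of `O(m)` on `Y` are polynomials, then the condition is true for some `e` if and only if `K_Y` is an
integral multiple of `L = O(1)`; for the other embeddings it implies that `K_Y` is a multiple of `O(1)`.

If `E` is monic in `t`, so that `X` is a cover of `Y`, then the canonical bundle of `X` is `K_X = O(e - ∑ w_i + (r - 1) b)`, and it is ample if and
only if `∑ w_i < e + (r - 1) b`.

**Limits** (`IsLimit`). Let `A` be a valuation ring of `F` and `φ` a local homomorphism of `A` to a field `k` (a place of `F`). A set `T` of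
polynomials over `k` defines a limit of `X` if each of its elements is the image under `φ` of a weighted homogeneous polynomial over `A`
which vanishes on `X`: so the zero set of `T` contains the specialisation of `X` at the place. For example, if `X_t` is a family of projective varieties
over a smooth curve with `X` as its geometric generic fibre, then all fibres `X_0` are limits of `X` (`k = ℂ`, `A` a valuation ring above the local ring
of the curve). If `F = k`, then `X` is a limit of itself (`isLimit_self`).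

**Theorem (`result`).** Let `Y` be smooth over `F` with `K_Y = O(e - ∑ w_i)`, `dim Y = dim X = n - c ≥ 3`, and let `(t, v)` be a point of `X` with
`v ≠ 0` and `∂E/∂t ≠ 0` (`X` has a reduced component over `Y`). Let `X_0`, the common zero set of `T` in `P(b, w)` over a field `k`, be a limit of `X`. If
`X_0` contains no rational curve, then `∑ w_i < e + (r - 1) b`. The same is true for `k = ℂ` if there is no nonconstant holomorphic map `ℂ → X_0`; so it
is true if `X_0` is hyperbolic.

So Kobayashi's conjecture is true for all smooth covers `X` as above (`E` monic in `t`), and for all their smooth limits `X_0` in families of polarized varieties, as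
`K_(X_0) = O(e - ∑ w_i + (r - 1) b)` for these.

There is no hypothesis on curves in `Y`: the proof contains proofs of the theorem of Mori that through every point of a Fano manifold
`Y` there is a rational curve, and of the lower bound for the dimension of the space of these curves. The rational curves specialise to the limits.
-/

set_option autoImplicit false

namespace Pool.Agent.Results.MP_1e3e9c_ag.CoverCurve

open MvPolynomial

/-- `x` and `y` are coordinates of the same point of the weighted projective space. -/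
def Same {k : Type} [Field k] {n : ℕ} (w : Fin (n + 1) → ℕ) (x y : Fin (n + 1) → k) : Prop :=
  ∃ a : k, a ≠ 0 ∧ ∀ i, y i = a ^ w i * x i

/-- The value at `t` of a tuple of polynomials. -/
noncomputable def value {k : Type} [Field k] {n : ℕ} (p : Fin (n + 1) → Polynomial k) (t : k) :
    Fin (n + 1) → k :=
  fun i => (p i).eval t

/-- There is a nonconstant rational curve in the common zero set of the elements of `S`. -/
def HasRationalCurve {k : Type} [Field k] {n : ℕ} (w : Fin (n + 1) → ℕ)
    (S : Set (MvPolynomial (Fin (n + 1)) k)) : Prop :=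
  ∃ p : Fin (n + 1) → Polynomial k, (∀ t, ∀ P ∈ S, eval (value p t) P = 0) ∧
    ∃ s t, value p s ≠ 0 ∧ value p t ≠ 0 ∧ ¬ Same w (value p s) (value p t)

/-- The map from `ℂ` to `P(w)` with the coordinates `F z` is holomorphic: locally, after a substitution
`z = z₀ + u^m`, the coordinates can be chosen holomorphic. -/
def Holomorphic {n : ℕ} (w : Fin (n + 1) → ℕ) (F : ℂ → Fin (n + 1) → ℂ) : Prop :=
  ∀ z₀ : ℂ, ∃ m : ℕ, 0 < m ∧ ∃ φ : ℂ → Fin (n + 1) → ℂ, AnalyticAt ℂ φ 0 ∧ φ 0 ≠ 0 ∧
    ∀ᶠ u in nhds (0 : ℂ), Same w (φ u) (F (z₀ + u ^ m))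

/-- There is a nonconstant holomorphic map from `ℂ` to the common zero set in `P(w)` of the elements of `S`. -/
def HasEntireCurve {n : ℕ} (w : Fin (n + 1) → ℕ) (S : Set (MvPolynomial (Fin (n + 1)) ℂ)) : Prop :=
  ∃ F : ℂ → Fin (n + 1) → ℂ, (∀ z, F z ≠ 0) ∧ Holomorphic w F ∧
    (∀ z, ∀ P ∈ S, eval (F z) P = 0) ∧ ∃ z, ¬ Same w (F 0) (F z)

/-- The gradient of `P` at `v`. -/
noncomputable def gradient {k : Type} [Field k] {n : ℕ} (P : MvPolynomial (Fin (n + 1)) k)
    (v : Fin (n + 1) → k) : Fin (n + 1) → k :=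
  fun i => eval v (pderiv i P)

/-- `v` is a smooth point of the scheme `S = 0`, of codimension `c`: near `v` this scheme is given by `c` elements of `S`,
whose gradients at `v` are linearly independent. -/
def IsSmoothAt {k : Type} [Field k] {n : ℕ} (S : Set (MvPolynomial (Fin (n + 1)) k)) (c : ℕ)
    (v : Fin (n + 1) → k) : Prop :=
  ∃ P : Fin c → MvPolynomial (Fin (n + 1)) k, (∀ l, P l ∈ S) ∧
    LinearIndependent k (fun l => gradient (P l) v) ∧
    ∀ Q ∈ S, ∃ h, eval v h ≠ 0 ∧ h * Q ∈ Ideal.span (Set.range P)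

/-- The common zero set `Y` of `S` in `P(w)` is smooth of codimension `c`, and the weights of the nonzero coordinates of its points
have no common divisor: `O(1)` is a line bundle on `Y`. -/
def IsSmooth {k : Type} [Field k] {n : ℕ} (w : Fin (n + 1) → ℕ)
    (S : Set (MvPolynomial (Fin (n + 1)) k)) (c : ℕ) : Prop :=
  ∀ v : Fin (n + 1) → k, v ≠ 0 → (∀ P ∈ S, eval v P = 0) →
    IsSmoothAt S c v ∧ ∀ d : ℕ, (∀ i, v i ≠ 0 → d ∣ w i) → d = 1

/-- The minor of the Jacobian matrix of `P_1, ..., P_c` with the columns `j_1, ..., j_c`. -/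
noncomputable def minor {k : Type} [Field k] {n c : ℕ} (P : Fin c → MvPolynomial (Fin (n + 1)) k)
    (j : Fin c → Fin (n + 1)) : MvPolynomial (Fin (n + 1)) k :=
  Matrix.det (Matrix.of fun a b : Fin c => pderiv (j b) (P a))

/-- The determinant of the normal bundle of the common zero set `Y` of `S` is `O(e)`: `K_Y = O(e - ∑ w_i)`. -/
def HasNormalDegree {k : Type} [Field k] {n : ℕ} (w : Fin (n + 1) → ℕ)
    (S : Set (MvPolynomial (Fin (n + 1)) k)) (c e : ℕ) : Prop :=
  ∃ ψ : (Fin c → Fin (n + 1)) → MvPolynomial (Fin (n + 1)) k,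
    (∀ j, ψ j ≠ 0 → ∃ d, (ψ j).IsWeightedHomogeneous w d ∧ d + ∑ b, w (j b) = e) ∧
    ∀ x : Fin (n + 1) → k, x ≠ 0 → (∀ P ∈ S, eval x P = 0) →
      (∀ P : Fin c → MvPolynomial (Fin (n + 1)) k, (∀ l, P l ∈ S) → ∀ i j,
        eval x (ψ i) * eval x (minor P j) = eval x (ψ j) * eval x (minor P i)) ∧
      ∃ j, eval x (ψ j) ≠ 0

/-- The weights of the coordinates `t, x_0, ..., x_n`. -/
def weights {n : ℕ} (b : ℕ) (w : Fin (n + 1) → ℕ) : Fin (n + 1 + 1) → ℕ := Fin.cons b w

/-- The equations of the cover: `E` and the equations `S` of the base, as polynomials in `t, x_0, ..., x_n`. -/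
def equations {k : Type} [Field k] {n : ℕ} (S : Set (MvPolynomial (Fin (n + 1)) k))
    (E : MvPolynomial (Fin (n + 1 + 1)) k) : Set (MvPolynomial (Fin (n + 1 + 1)) k) :=
  insert E (rename Fin.succ '' S)

/-- There is a point `(t, v)` of `X` with `v ≠ 0` and `∂E/∂t ≠ 0`. -/
def HasReducedPoint {k : Type} [Field k] {n : ℕ} (S : Set (MvPolynomial (Fin (n + 1)) k))
    (E : MvPolynomial (Fin (n + 1 + 1)) k) : Prop :=
  ∃ u : Fin (n + 1 + 1) → k, (∀ P ∈ equations S E, eval u P = 0) ∧
    (fun i : Fin (n + 1) => u i.succ) ≠ 0 ∧ eval u (pderiv 0 E) ≠ 0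

/-- The common zero set of `T` (over `k`) is a limit of the common zero set of `S` (over `F`): `A` is a valuation ring of `F`, `φ` is a local
homomorphism of `A` to `k`, and all elements of `T` are images of weighted homogeneous polynomials over `A` which vanish on the common zero
set of `S`. -/
def IsLimit {F k : Type} [Field F] [Field k] {n : ℕ} (w : Fin (n + 1) → ℕ)
    (S : Set (MvPolynomial (Fin (n + 1)) F)) (T : Set (MvPolynomial (Fin (n + 1)) k)) : Prop :=
  ∃ (A : ValuationSubring F) (φ : A →+* k), (∀ a, φ a ≠ 0 → IsUnit a) ∧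
    ∀ Q ∈ T, ∃ (P : MvPolynomial (Fin (n + 1)) A) (m : ℕ), P.IsWeightedHomogeneous w m ∧
      (∀ x, (∀ R ∈ S, eval x R = 0) → eval x (map (algebraMap A F) P) = 0) ∧ map φ P = Q

/-- For `F = k`: `X` is a limit of itself. -/
theorem isLimit_self {k : Type} [Field k] {n : ℕ} {w : Fin (n + 1) → ℕ}
    {S : Set (MvPolynomial (Fin (n + 1)) k)} (hS : ∀ P ∈ S, ∃ m, P.IsWeightedHomogeneous w m) :
    IsLimit w S S := by
  have hc : (algebraMap (⊤ : ValuationSubring k) k).comp
      ((RingHom.id k).codRestrict (⊤ : ValuationSubring k).toSubring ValuationSubring.mem_top) =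
        RingHom.id k := by
    ext x
    rfl
  refine ⟨⊤, algebraMap (⊤ : ValuationSubring k) k, fun a ha => ?_, fun Q hQ => ?_⟩
  · have ha' : (a : k) ≠ 0 := ha
    refine isUnit_iff_exists_inv.2 ⟨⟨(a : k)⁻¹, ValuationSubring.mem_top _⟩, ?_⟩
    apply Subtype.ext
    exact mul_inv_cancel₀ ha'
  · obtain ⟨m, hm⟩ := hS Q hQ
    refine ⟨map ((RingHom.id k).codRestrict (⊤ : ValuationSubring k).toSubring
      ValuationSubring.mem_top) Q, m, ?_, fun x hx => ?_, ?_⟩
    · intro d hd
      refine hm fun h0 => hd ?_
      rw [coeff_map, h0, map_zero]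
    · rw [map_map, hc, map_id]
      exact hx Q hQ
    · rw [map_map, hc, map_id]

theorem main {k : Type} [Field k] [IsAlgClosed k] [CharZero k] {n b r c e : ℕ}
    (w : Fin (n + 1) → ℕ) (S : Set (MvPolynomial (Fin (n + 1)) k))
    (E : MvPolynomial (Fin (n + 1 + 1)) k) (hw : ∀ i, 0 < w i) (hb : 0 < b)
    (hr : 2 ≤ r) (hn : c + 3 ≤ n) (hS : ∀ P ∈ S, ∃ m, P.IsWeightedHomogeneous w m)
    (hE : E.IsWeightedHomogeneous (weights b w) (r * b)) (hV : IsSmooth w S c)
    (hK : HasNormalDegree w S c e) (hX : HasReducedPoint S E)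
    (he : e + (r - 1) * b ≤ ∑ i, w i) :
    Lib.MP_1e3e9c_agR.HasRat (weights b w) (equations S E) := by
  obtain ⟨ψ, h1, h2⟩ := hK
  obtain ⟨u, huS, hu0, hu'⟩ := hX
  have hψ : Lib.MP_1e3e9c_agF.Cnl w S c e ψ := ⟨h1, fun x hx hP => (h2 x hx hP).1,
    fun x hx hP => (h2 x hx hP).2⟩
  refine Lib.MP_1e3e9c_agF.fano_cover_curve (m := ∑ i, w i - e) hw hb hr (by omega) hn hS hE hV hψ
    (by omega) (huS E (Set.mem_insert _ _)) hu' hu0 fun P hP => ?_
  have h3 := huS (rename Fin.succ P) (Set.mem_insert_of_mem _ ⟨P, hP, rfl⟩)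
  rw [eval_rename] at h3
  exact h3

theorem main_limit {F k : Type} [Field F] [IsAlgClosed F] [CharZero F] [Field k] {n b r c e : ℕ}
    (w : Fin (n + 1) → ℕ) (S : Set (MvPolynomial (Fin (n + 1)) F))
    (E : MvPolynomial (Fin (n + 1 + 1)) F) (T : Set (MvPolynomial (Fin (n + 1 + 1)) k))
    (hw : ∀ i, 0 < w i) (hb : 0 < b)
    (hr : 2 ≤ r) (hn : c + 3 ≤ n) (hS : ∀ P ∈ S, ∃ m, P.IsWeightedHomogeneous w m)
    (hE : E.IsWeightedHomogeneous (weights b w) (r * b)) (hV : IsSmooth w S c)
    (hK : HasNormalDegree w S c e) (hX : HasReducedPoint S E)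
    (hT : IsLimit (weights b w) (equations S E) T) (he : e + (r - 1) * b ≤ ∑ i, w i) :
    Lib.MP_1e3e9c_agR.HasRat (weights b w) T := by
  obtain ⟨A, φ, hφ, hT⟩ := hT
  have hw' : ∀ i, 0 < weights b w i := by
    intro i
    refine Fin.cases ?_ (fun j => ?_) i
    · exact hb
    · exact hw j
  have h1 := Lib.MP_1e3e9c_agF.limit_rat (S := equations S E)
    (T := {P | (∃ m, P.IsWeightedHomogeneous (weights b w) m) ∧
      ∀ x, (∀ R ∈ equations S E, eval x R = 0) → eval x (map (algebraMap A F) P) = 0})
    A φ hφ hw' (fun P hP => hP.1) (fun P hP => hP.2) (main w S E hw hb hr hn hS hE hV hK hX he)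
  refine Lib.MP_1e3e9c_agF.hasRat_mono (fun Q hQ => ?_) h1
  obtain ⟨P, m, hm, hP, hPQ⟩ := hT Q hQ
  exact ⟨P, ⟨⟨m, hm⟩, hP⟩, hPQ⟩

/-- **Theorem.** -/
theorem result :
    (∀ (F k : Type) [Field F] [IsAlgClosed F] [CharZero F] [Field k] (n b r c e : ℕ)
      (w : Fin (n + 1) → ℕ) (S : Set (MvPolynomial (Fin (n + 1)) F))
      (E : MvPolynomial (Fin (n + 1 + 1)) F) (T : Set (MvPolynomial (Fin (n + 1 + 1)) k)),
      (∀ i, 0 < w i) → 0 < b → 2 ≤ r → c + 3 ≤ n →
      (∀ P ∈ S, ∃ m, P.IsWeightedHomogeneous w m) →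
      E.IsWeightedHomogeneous (weights b w) (r * b) → IsSmooth w S c → HasNormalDegree w S c e →
      HasReducedPoint S E → IsLimit (weights b w) (equations S E) T →
      ¬ HasRationalCurve (weights b w) T → ∑ i, w i < e + (r - 1) * b) ∧
    (∀ (F : Type) [Field F] [IsAlgClosed F] [CharZero F] (n b r c e : ℕ)
      (w : Fin (n + 1) → ℕ) (S : Set (MvPolynomial (Fin (n + 1)) F))
      (E : MvPolynomial (Fin (n + 1 + 1)) F) (T : Set (MvPolynomial (Fin (n + 1 + 1)) ℂ)),
      (∀ i, 0 < w i) → 0 < b → 2 ≤ r → c + 3 ≤ n →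
      (∀ P ∈ S, ∃ m, P.IsWeightedHomogeneous w m) →
      E.IsWeightedHomogeneous (weights b w) (r * b) → IsSmooth w S c → HasNormalDegree w S c e →
      HasReducedPoint S E → IsLimit (weights b w) (equations S E) T →
      ¬ HasEntireCurve (weights b w) T → ∑ i, w i < e + (r - 1) * b) := by
  refine ⟨fun _ _ _ _ _ _ _ _ _ _ _ w S E T hw hb hr hn hS hE hV hK hX hT hno => ?_,
    fun _ _ _ _ _ b _ _ _ w S E T hw hb hr hn hS hE hV hK hX hT hno => ?_⟩
  · by_contra hcon
    exact hno (main_limit w S E T hw hb hr hn hS hE hV hK hX hT (not_lt.1 hcon))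
  · by_contra hcon
    refine hno (Lib.MP_1e3e9c_agR.hol_of_rat ?_ ?_
      (main_limit w S E T hw hb hr hn hS hE hV hK hX hT (not_lt.1 hcon)))
    · intro i
      refine Fin.cases ?_ (fun j => ?_) i
      · exact hb
      · exact hw j
    · obtain ⟨A, φ, -, hT⟩ := hT
      intro Q hQ
      obtain ⟨P, m, hm, -, rfl⟩ := hT Q hQ
      refine ⟨m, fun d hd => hm fun h0 => hd ?_⟩
      rw [coeff_map, h0, map_zero]

end Pool.Agent.Results.MP_1e3e9c_ag.CoverCurve
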