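import Pool.Agent.Lib.MP_1e3e9c_agC.C18
import Pool.Agent.Lib.MP_1e3e9c_agF.L4
import Pool.Agent.Lib.MP_1e3e9c_agF.LG
import Pool.Agent.Lib.MP_1e3e9c_agR.HR

/-!
# Hyperbolic complete intersections in varieties `W` with `K_W` a multiple of `O(1)`, and their limits, have an ample canonical bundle

`k` and `L` are fields, `L` is algebraically closed of characteristic zero. The coordinates of the weighted projective space
`P(w)`, `w = (w_0, ..., w_n)`, are the vectors `x ≠ 0` of `k^(n+1)`, two of them being coordinates of the same point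
if `y_i = a^(w_i) x_i` for some `a ≠ 0` (`Same`). `W` is the common zero set in `P(w)` of a set `S` of weighted homogeneous
polynomials, and `X` is the common zero set in `W` of `s + 1` weighted homogeneous polynomials `G_0, ..., G_s` of weights
`g_0, ..., g_s ≥ 1`.

**Good points.** `x` is a good point of `W` (`IsGoodAt`) if (1) `W` is smooth of codimension `c` at `x`: near `x` it is given by `c` of its
equations, with linearly independent gradients at `x` (`IsSmoothAt`); (2) the weights of the nonzero coordinates of `x` have no common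
divisor (so `O(1)` is a line bundle near `x`; if all weights are `1` this is no condition); (3) `ψ` generates the determinant of the
conormal bundle at `x`. Here the `ψ_j` are polynomials of weight `e - w_(j_1) - ... - w_(j_c)` (`HasWeights`), for all
`j = (j_1, ..., j_c)`. The determinant of the conormal bundle of `W` is spanned at `x` by `dP_1 ∧ ... ∧ dP_c`, for `c` equations
`P_1, ..., P_c` with independent gradients, whose components are the minors of their Jacobian matrix (`minor`); (3) says
that `(ψ_j(x))_j` is not zero and proportional to the vector of these minors. So `ψ` is an isomorphism of this determinant with `O(-e)`,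
that is, `K_W = O(e - ∑ w_i)` on the set of good points.

If `V` is any smooth projective variety and `H` an ample line bundle such that `K_V` is a multiple of `H`, for instance a Fano manifold with
`-K_V` a multiple of `H`, then `V = Proj ⊕ H^0(V, m H)` is a subvariety of a `P(w)`, `H = O(1)`, all of whose points are good: the
cone over `V` without its vertex is the total space of `H⁻¹` without the zero section, and the sections of `O(m)` on `V` are polynomials.

**The complete intersections** (`IsIntersection`). The points of `W` which are not good form a set whose closure has dimension `< s` (`DimLess`; for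
`s = 0` all points are good), `dim X = n - c - s - 1 ≥ 3`, and one of the following is true.
* (A) (`IsSmoothCase`) `g_0 ≤ g_j`, and `O(g_j - g_0)` is generated by polynomials at the points of `W` (`IsGenerated`), for all `j`; `X` has a smooth
  point; and if `s > 0`, all points of `X` are smooth points of the complete intersection (`IsSmoothIntersectionAt`) and good points of `W`.
* (B) (`IsGeneratedCase`) `O(g_j)` is generated by polynomials at the points of `W`, for all `j`, and `W` has a good point. There is no condition on the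
  `G_j`: `X` may be singular, or reducible. If all weights are `1`, this is the case for all `W` and all `g_j`.

In case (A), `K_X = O(e + ∑ g_j - ∑ w_i)` (adjunction) if `X` is smooth, and in case (B) this is the canonical bundle of `X` if `X` is smooth of
codimension `s + 1` in `W` and all its points are good points of `W`. It is ample if and only if `∑ w_i < e + ∑ g_j`.

`W` may be singular if `s > 0`. For example, let `W` be the set of the skew symmetric 7 × 7 matrices of rank at most 4 in `P^20`: it has dimension 17,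
`K_W = O(-14)`, and its singular points are the matrices of rank 2, a set of dimension 10. With `s = 13` and all `g_j = 1` one obtains the Pfaffian
Calabi–Yau threefolds of Rødland in `P^6`.

**Limits** (`IsLimit`). Let `A` be a valuation ring of `L` and `φ` a local homomorphism of `A` to a field `k` (a place of `L`). A set `T` of
polynomials over `k` defines a limit of `X` if each of its elements is the image under `φ` of a weighted homogeneous polynomial over `A`
which vanishes on `X`: so the zero set of `T` contains the specialisation of `X` at the place. For example, if `X_t` is a family of projective varieties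
over a smooth curve with `X` as its geometric generic fibre, then all fibres `X_0` are limits of `X` (`k = ℂ`, `A` a valuation ring above the local ring
of the curve). If `L = k`, then `X` is a limit of itself (`isLimit_self`).

**Theorem (`result`).** Let `X` be as above, over `L`, and let `X_0`, the common zero set of `T` in `P(w)` over a field `k`, be a limit of `X`. If
`X_0` contains no rational curve, then `∑ w_i < e + ∑ g_j`. The same is true for `k = ℂ` if there is no nonconstant holomorphic map
`ℂ → X_0`; so it is true if `X_0` is hyperbolic.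

So Kobayashi's conjecture is true for all these `X`, and for all their limits `X_0` with `K_(X_0) = O(e + ∑ g_j - ∑ w_i)`: this is the canonical bundle of the
smooth fibres of a family as above.

There is no hypothesis on curves in `W`: the proof contains proofs of the theorem of Mori that through every point of a Fano manifold
there is a rational curve, of the lower bound for the dimension of the space of these curves, and of Bertini's theorem. Suppose `∑ w_i ≥ e + ∑ g_j`.
In case (A) the generic complete intersection `V = {G_j + M_j G_0 = 0, j ≥ 1}`, `M_j` of weight `g_j - g_0`, is smooth, with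
`K_V = O(-m)`, `m ≥ g_0`; for a point `v` of `X` let `D` be the least degree of the rational curves on `V` through `v`. The curves of degree `D`
through `v` form an unsplit family of dimension at least `m D ≥ g_0 D`, and the `g_0 D` conditions that a curve of this family is contained in `X` are
shown to have a solution. In case (B) this is applied to the generic `X`, and it is shown that a rational curve on `X` specialises to one on every limit of `X`.
-/

set_option autoImplicit false

namespace Pool.Agent.Results.MP_1e3e9c_ag.RationalCurve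

open MvPolynomial

/-- `x` and `y` are coordinates of the same point of the weighted projective space. -/
def Same {k : Type} [Field k] {n : ℕ} (w : Fin (n + 1) → ℕ) (x y : Fin (n + 1) → k) : Prop :=
  ∃ a : k, a ≠ 0 ∧ ∀ i, y i = a ^ w i * x i

/-- The value at `t` of a tuple of polynomials. -/
noncomputable def value {k : Type} [Field k] {n : ℕ} (p : Fin (n + 1) → Polynomial k) (t : k) :
    Fin (n + 1) → k :=
  fun i => (p i).eval t

/-- There is a nonconstant rational curve in the common zero set of the elements of `S`. -/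
def HasRationalCurve {k : Type} [Field k] {n : ℕ} (w : Fin (n + 1) → ℕ)
    (S : Set (MvPolynomial (Fin (n + 1)) k)) : Prop :=
  ∃ p : Fin (n + 1) → Polynomial k, (∀ t, ∀ P ∈ S, eval (value p t) P = 0) ∧
    ∃ s t, value p s ≠ 0 ∧ value p t ≠ 0 ∧ ¬ Same w (value p s) (value p t)

/-- The map from `ℂ` to `P(w)` with the coordinates `F z` is holomorphic: locally, after a substitution
`z = z₀ + u^m`, the coordinates can be chosen holomorphic. -/
def Holomorphic {n : ℕ} (w : Fin (n + 1) → ℕ) (F : ℂ → Fin (n + 1) → ℂ) : Prop :=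
  ∀ z₀ : ℂ, ∃ m : ℕ, 0 < m ∧ ∃ φ : ℂ → Fin (n + 1) → ℂ, AnalyticAt ℂ φ 0 ∧ φ 0 ≠ 0 ∧
    ∀ᶠ u in nhds (0 : ℂ), Same w (φ u) (F (z₀ + u ^ m))

/-- There is a nonconstant holomorphic map from `ℂ` to the common zero set in `P(w)` of the elements of `S`. -/
def HasEntireCurve {n : ℕ} (w : Fin (n + 1) → ℕ) (S : Set (MvPolynomial (Fin (n + 1)) ℂ)) : Prop :=
  ∃ F : ℂ → Fin (n + 1) → ℂ, (∀ z, F z ≠ 0) ∧ Holomorphic w F ∧
    (∀ z, ∀ P ∈ S, eval (F z) P = 0) ∧ ∃ z, ¬ Same w (F 0) (F z)

/-- The gradient of `P` at `x`. -/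
noncomputable def gradient {k : Type} [Field k] {n : ℕ} (P : MvPolynomial (Fin (n + 1)) k)
    (x : Fin (n + 1) → k) : Fin (n + 1) → k :=
  fun i => eval x (pderiv i P)

/-- `x` is a smooth point of the scheme `S = 0`, of codimension `c`: near `x` this scheme is given by `c` elements of `S`,
whose gradients at `x` are linearly independent. -/
def IsSmoothAt {k : Type} [Field k] {n : ℕ} (S : Set (MvPolynomial (Fin (n + 1)) k)) (c : ℕ)
    (x : Fin (n + 1) → k) : Prop :=
  ∃ P : Fin c → MvPolynomial (Fin (n + 1)) k, (∀ l, P l ∈ S) ∧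
    LinearIndependent k (fun l => gradient (P l) x) ∧
    ∀ Q ∈ S, ∃ h, eval x h ≠ 0 ∧ h * Q ∈ Ideal.span (Set.range P)

/-- The minor of the Jacobian matrix of `P_1, ..., P_c` with the columns `j_1, ..., j_c`. -/
noncomputable def minor {k : Type} [Field k] {n c : ℕ} (P : Fin c → MvPolynomial (Fin (n + 1)) k)
    (j : Fin c → Fin (n + 1)) : MvPolynomial (Fin (n + 1)) k :=
  Matrix.det (Matrix.of fun a b : Fin c => pderiv (j b) (P a))

/-- `x` is a coordinate vector of a point of the common zero set of `S` in `P(w)`. -/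
def IsPoint {k : Type} [Field k] {n : ℕ} (S : Set (MvPolynomial (Fin (n + 1)) k))
    (x : Fin (n + 1) → k) : Prop :=
  x ≠ 0 ∧ ∀ P ∈ S, eval x P = 0

/-- `ψ_j` is weighted homogeneous of weight `e - w_(j_1) - ... - w_(j_c)`. -/
def HasWeights {k : Type} [Field k] {n c : ℕ} (w : Fin (n + 1) → ℕ) (e : ℕ)
    (ψ : (Fin c → Fin (n + 1)) → MvPolynomial (Fin (n + 1)) k) : Prop :=
  ∀ j, ψ j ≠ 0 → ∃ d, (ψ j).IsWeightedHomogeneous w d ∧ d + ∑ b, w (j b) = e

/-- `x` is a good point of the common zero set `W` of `S`: `W` is smooth of codimension `c` at `x`, the weights of the nonzero coordinates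
of `x` have no common divisor, and `ψ` is not zero at `x`, and proportional to the vector of the minors of the Jacobian matrix of any
`c` equations. -/
def IsGoodAt {k : Type} [Field k] {n c : ℕ} (w : Fin (n + 1) → ℕ)
    (S : Set (MvPolynomial (Fin (n + 1)) k))
    (ψ : (Fin c → Fin (n + 1)) → MvPolynomial (Fin (n + 1)) k) (x : Fin (n + 1) → k) : Prop :=
  IsSmoothAt S c x ∧ (∀ d : ℕ, (∀ i, x i ≠ 0 → d ∣ w i) → d = 1) ∧
    (∀ P : Fin c → MvPolynomial (Fin (n + 1)) k, (∀ l, P l ∈ S) → ∀ i j,
      eval x (ψ i) * eval x (minor P j) = eval x (ψ j) * eval x (minor P i)) ∧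
    ∃ j, eval x (ψ j) ≠ 0

/-- The closure in `P(w)` of the set of the points with coordinates in `B` has dimension less than `s`: the closure of the cone over it has
dimension at most `s`. -/
def DimLess {k : Type} [Field k] {n : ℕ} (w : Fin (n + 1) → ℕ) (B : Set (Fin (n + 1) → k))
    (s : ℕ) : Prop :=
  ringKrullDim (MvPolynomial (Fin (n + 1)) k ⧸
    vanishingIdeal k {x : Fin (n + 1) → k | ∃ a : k, a ≠ 0 ∧ ∃ v ∈ B, x = fun i => a ^ w i * v i}) ≤
      ((s : ℕ) : WithBot ℕ∞)

/-- `O(m)` is generated by polynomials at the points of the common zero set of `S`. -/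
def IsGenerated {k : Type} [Field k] {n : ℕ} (w : Fin (n + 1) → ℕ)
    (S : Set (MvPolynomial (Fin (n + 1)) k)) (m : ℕ) : Prop :=
  ∀ x, IsPoint S x → ∃ M : MvPolynomial (Fin (n + 1)) k,
    M.IsWeightedHomogeneous w m ∧ eval x M ≠ 0

/-- `x` is a smooth point of the complete intersection `G_0 = ... = G_s = 0` in the common zero set of `S`: there are `c`
elements of `S` such that their gradients and those of `G_0, ..., G_s` at `x` are linearly independent. -/
def IsSmoothIntersectionAt {k : Type} [Field k] {n s : ℕ} (S : Set (MvPolynomial (Fin (n + 1)) k))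
    (G : Fin (s + 1) → MvPolynomial (Fin (n + 1)) k) (c : ℕ) (x : Fin (n + 1) → k) : Prop :=
  ∃ P : Fin c → MvPolynomial (Fin (n + 1)) k, (∀ l, P l ∈ S) ∧
    LinearIndependent k (Sum.elim (fun l => gradient (P l) x) fun j => gradient (G j) x :
      Fin c ⊕ Fin (s + 1) → Fin (n + 1) → k)

/-- Case (A). -/
def IsSmoothCase {k : Type} [Field k] {n s c : ℕ} (w : Fin (n + 1) → ℕ)
    (S : Set (MvPolynomial (Fin (n + 1)) k)) (g : Fin (s + 1) → ℕ)
    (G : Fin (s + 1) → MvPolynomial (Fin (n + 1)) k)
    (ψ : (Fin c → Fin (n + 1)) → MvPolynomial (Fin (n + 1)) k) : Prop :=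
  (∀ j, g 0 ≤ g j ∧ IsGenerated w S (g j - g 0)) ∧
    (∃ x, IsPoint (S ∪ Set.range G) x ∧ IsSmoothIntersectionAt S G c x) ∧
    (0 < s → ∀ x, IsPoint (S ∪ Set.range G) x →
      IsSmoothIntersectionAt S G c x ∧ IsGoodAt w S ψ x)

/-- Case (B). -/
def IsGeneratedCase {k : Type} [Field k] {n s c : ℕ} (w : Fin (n + 1) → ℕ)
    (S : Set (MvPolynomial (Fin (n + 1)) k)) (g : Fin (s + 1) → ℕ)
    (ψ : (Fin c → Fin (n + 1)) → MvPolynomial (Fin (n + 1)) k) : Prop :=
  (∀ j, IsGenerated w S (g j)) ∧ ∃ x, IsPoint S x ∧ IsGoodAt w S ψ x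

/-- `X = {G_0 = ... = G_s = 0}` is a complete intersection in the common zero set `W` of `S`, as described above: `K_W = O(e - ∑ w_i)` outside
of a set of dimension less than `s`, `dim X = n - c - s - 1 ≥ 3`, and (A) or (B). -/
structure IsIntersection {k : Type} [Field k] {n s : ℕ} (w : Fin (n + 1) → ℕ)
    (S : Set (MvPolynomial (Fin (n + 1)) k)) (c e : ℕ) (g : Fin (s + 1) → ℕ)
    (G : Fin (s + 1) → MvPolynomial (Fin (n + 1)) k) : Prop where
  weights : ∀ i, 0 < w i
  homogeneous : ∀ P ∈ S, ∃ m, P.IsWeightedHomogeneous w m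
  dimension : c + s + 4 ≤ n
  degrees : ∀ j, 0 < g j ∧ (G j).IsWeightedHomogeneous w (g j)
  good : ∃ ψ : (Fin c → Fin (n + 1)) → MvPolynomial (Fin (n + 1)) k, HasWeights w e ψ ∧
    DimLess w {x | IsPoint S x ∧ ¬ IsGoodAt w S ψ x} s ∧
    (IsSmoothCase w S g G ψ ∨ IsGeneratedCase w S g ψ)

/-- The common zero set of `T` (over `k`) is a limit of the common zero set of `S` (over `L`): `A` is a valuation ring of `L`, `φ` is a local
homomorphism of `A` to `k`, and all elements of `T` are images of weighted homogeneous polynomials over `A` which vanish on the common zero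
set of `S`. -/
def IsLimit {L k : Type} [Field L] [Field k] {n : ℕ} (w : Fin (n + 1) → ℕ)
    (S : Set (MvPolynomial (Fin (n + 1)) L)) (T : Set (MvPolynomial (Fin (n + 1)) k)) : Prop :=
  ∃ (A : ValuationSubring L) (φ : A →+* k), (∀ a, φ a ≠ 0 → IsUnit a) ∧
    ∀ Q ∈ T, ∃ (P : MvPolynomial (Fin (n + 1)) A) (m : ℕ), P.IsWeightedHomogeneous w m ∧
      (∀ x, (∀ R ∈ S, eval x R = 0) → eval x (map (algebraMap A L) P) = 0) ∧ map φ P = Q

/-- For `L = k`: `X` is a limit of itself. -/
theorem isLimit_self {k : Type} [Field k] {n : ℕ} {w : Fin (n + 1) → ℕ}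
    {S : Set (MvPolynomial (Fin (n + 1)) k)} (hS : ∀ P ∈ S, ∃ m, P.IsWeightedHomogeneous w m) :
    IsLimit w S S := by
  have hc : (algebraMap (⊤ : ValuationSubring k) k).comp
      ((RingHom.id k).codRestrict (⊤ : ValuationSubring k).toSubring ValuationSubring.mem_top) =
        RingHom.id k := by
    ext x
    rfl
  refine ⟨⊤, algebraMap (⊤ : ValuationSubring k) k, fun a ha => ?_, fun Q hQ => ?_⟩
  · have ha' : (a : k) ≠ 0 := ha
    refine isUnit_iff_exists_inv.2 ⟨⟨(a : k)⁻¹, ValuationSubring.mem_top _⟩, ?_⟩
    apply Subtype.ext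
    exact mul_inv_cancel₀ ha'
  · obtain ⟨m, hm⟩ := hS Q hQ
    refine ⟨map ((RingHom.id k).codRestrict (⊤ : ValuationSubring k).toSubring
      ValuationSubring.mem_top) Q, m, ?_, fun x hx => ?_, ?_⟩
    · intro d hd
      refine hm fun h0 => hd ?_
      rw [coeff_map, h0, map_zero]
    · rw [map_map, hc, map_id]
      exact hx Q hQ
    · rw [map_map, hc, map_id]

theorem main {L : Type} [Field L] [IsAlgClosed L] [CharZero L] {n s c e : ℕ}
    {w : Fin (n + 1) → ℕ} {S : Set (MvPolynomial (Fin (n + 1)) L)} {g : Fin (s + 1) → ℕ}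
    {G : Fin (s + 1) → MvPolynomial (Fin (n + 1)) L} (h : IsIntersection w S c e g G)
    (he : e + ∑ j, g j ≤ ∑ i, w i) : Lib.MP_1e3e9c_agR.HasRat w (S ∪ Set.range G) := by
  obtain ⟨ψ, hψ, hB, hAB⟩ := h.good
  have hgd : ∀ x, IsGoodAt w S ψ x → Lib.MP_1e3e9c_agC.Gd w S c ψ x := fun x hx =>
    ⟨hx.1, hx.2.1, hx.2.2.1, hx.2.2.2⟩
  have hW : ∀ x : Fin (n + 1) → L, x ≠ 0 → (∀ P ∈ S, eval x P = 0) →
      x ∉ {x | IsPoint S x ∧ ¬ IsGoodAt w S ψ x} → Lib.MP_1e3e9c_agC.Gd w S c ψ x := by
    intro x hx0 hx hxB
    by_contra hcon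
    exact hxB ⟨⟨hx0, hx⟩, fun h1 => hcon (hgd x h1)⟩
  rcases hAB with ⟨h1, ⟨x, hx, hxs⟩, h3⟩ | ⟨h1, x, hx, hxg⟩
  · have hsec : ∀ y, IsSmoothIntersectionAt S G c y →
        Lib.MP_1e3e9c_agC.Sec S (G 0) (fun j => G j.succ) c y := by
      rintro y ⟨P, hP, hli⟩
      refine ⟨P, hP, ?_⟩
      have h4 : (Fin.cons (gradient (G 0) y) fun j => gradient (G (Fin.succ j)) y :
          Fin (s + 1) → Fin (n + 1) → L) = fun j => gradient (G j) y := by
        funext j
        refine Fin.cases ?_ (fun j => ?_) j
        · rfl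
        · rfl
      have h5 : LinearIndependent L (Sum.elim (fun l => gradient (P l) y)
          (Fin.cons (gradient (G 0) y) fun j => gradient (G (Fin.succ j)) y :
            Fin (s + 1) → Fin (n + 1) → L)) := by
        rw [h4]
        exact hli
      exact h5
    have hpt : ∀ y : Fin (n + 1) → L, y ≠ 0 → (∀ P ∈ S, eval y P = 0) → eval y (G 0) = 0 →
        (∀ j : Fin s, eval y (G j.succ) = 0) → IsPoint (S ∪ Set.range G) y := by
      intro y hy0 hy h0 hj
      refine ⟨hy0, ?_⟩
      rintro P (hP | ⟨j, rfl⟩)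
      · exact hy P hP
      · exact Fin.cases h0 hj j
    refine Lib.MP_1e3e9c_agF.hasRat_mono (T := insert (G 0) (S ∪ Set.range fun j : Fin s => G j.succ))
      ?_ ?_
    · rintro P (hP | ⟨j, rfl⟩)
      · exact Or.inr (Or.inl hP)
      · refine Fin.cases (Or.inl rfl) (fun j => ?_) j
        exact Or.inr (Or.inr ⟨j, rfl⟩)
    · refine Lib.MP_1e3e9c_agC.ci_rational_curve (c := c) (e := e) (g₀ := g 0)
        (g := fun j : Fin s => g j.succ) (ψ := ψ) h.weights (h.degrees 0).1
        h.dimension h.homogeneous (h.degrees 0).2 (fun j => (h.degrees j.succ).2)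
        (fun j => (h1 j.succ).1) hψ hB hW (fun y hy0 hy _ j => (h1 j.succ).2 y ⟨hy0, hy⟩)
        ⟨x, hx.1, fun P hP => hx.2 P (Or.inl hP), hx.2 _ (Or.inr ⟨0, rfl⟩),
          fun j => hx.2 _ (Or.inr ⟨j.succ, rfl⟩), hsec x hxs⟩
        (fun hs y hy0 hy h0 hj => ?_) ?_
      · obtain ⟨h4, h5⟩ := h3 hs y (hpt y hy0 hy h0 hj)
        exact ⟨hgd y h5, hsec y h4⟩
      · rw [Fin.sum_univ_succ] at he
        omega
  · exact Lib.MP_1e3e9c_agF.em_rational_curve h.weights h.dimension h.homogeneous
      (fun j => (h.degrees j).1) (fun j => (h.degrees j).2) hψ hB hW ⟨x, hx.1, hx.2, hgd x hxg⟩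
      (fun y hy0 hy j => h1 j y ⟨hy0, hy⟩) he

theorem main_limit {L k : Type} [Field L] [IsAlgClosed L] [CharZero L] [Field k] {n s c e : ℕ}
    {w : Fin (n + 1) → ℕ} {S : Set (MvPolynomial (Fin (n + 1)) L)} {g : Fin (s + 1) → ℕ}
    {G : Fin (s + 1) → MvPolynomial (Fin (n + 1)) L} {T : Set (MvPolynomial (Fin (n + 1)) k)}
    (h : IsIntersection w S c e g G) (hT : IsLimit w (S ∪ Set.range G) T)
    (he : e + ∑ j, g j ≤ ∑ i, w i) : Lib.MP_1e3e9c_agR.HasRat w T := by
  obtain ⟨A, φ, hφ, hT⟩ := hT
  have h1 := Lib.MP_1e3e9c_agF.limit_rat (S := S ∪ Set.range G)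
    (T := {P | (∃ m, P.IsWeightedHomogeneous w m) ∧
      ∀ x, (∀ R ∈ S ∪ Set.range G, eval x R = 0) → eval x (map (algebraMap A L) P) = 0})
    A φ hφ h.weights (fun P hP => hP.1) (fun P hP => hP.2) (main h he)
  refine Lib.MP_1e3e9c_agF.hasRat_mono (fun Q hQ => ?_) h1
  obtain ⟨P, m, hm, hP, hPQ⟩ := hT Q hQ
  exact ⟨P, ⟨⟨m, hm⟩, hP⟩, hPQ⟩

/-- **Theorem.** -/
theorem result :
    (∀ (L k : Type) [Field L] [IsAlgClosed L] [CharZero L] [Field k] (n s c e : ℕ)
      (w : Fin (n + 1) → ℕ) (S : Set (MvPolynomial (Fin (n + 1)) L)) (g : Fin (s + 1) → ℕ)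
      (G : Fin (s + 1) → MvPolynomial (Fin (n + 1)) L) (T : Set (MvPolynomial (Fin (n + 1)) k)),
      IsIntersection w S c e g G → IsLimit w (S ∪ Set.range G) T →
      ¬ HasRationalCurve w T → ∑ i, w i < e + ∑ j, g j) ∧
    (∀ (L : Type) [Field L] [IsAlgClosed L] [CharZero L] (n s c e : ℕ)
      (w : Fin (n + 1) → ℕ) (S : Set (MvPolynomial (Fin (n + 1)) L)) (g : Fin (s + 1) → ℕ)
      (G : Fin (s + 1) → MvPolynomial (Fin (n + 1)) L) (T : Set (MvPolynomial (Fin (n + 1)) ℂ)),
      IsIntersection w S c e g G → IsLimit w (S ∪ Set.range G) T →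
      ¬ HasEntireCurve w T → ∑ i, w i < e + ∑ j, g j) := by
  refine ⟨fun _ _ _ _ _ _ _ _ _ _ _ _ _ _ _ h hT hno => ?_,
    fun _ _ _ _ _ _ _ _ _ _ _ _ _ h hT hno => ?_⟩
  · by_contra hcon
    exact hno (main_limit h hT (not_lt.1 hcon))
  · by_contra hcon
    refine hno (Lib.MP_1e3e9c_agR.hol_of_rat h.weights ?_ (main_limit h hT (not_lt.1 hcon)))
    obtain ⟨A, φ, -, hT⟩ := hT
    intro Q hQ
    obtain ⟨P, m, hm, -, rfl⟩ := hT Q hQ
    refine ⟨m, fun d hd => hm fun h0 => hd ?_⟩
    rw [coeff_map, h0, map_zero]

end Pool.Agent.Results.MP_1e3e9c_ag.RationalCurve
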