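import Pool.Agent.Lib.MP_1e3e9c_agY.Gp
import Pool.Agent.Lib.MP_1e3e9c_agY.Gr
import Pool.Agent.Lib.MP_1e3e9c_agR.HR

/-!
# Rational curves on complete intersections in projective toric varieties, and on their limits

`k` is an algebraically closed field of characteristic zero. `B` is a finite set of points of the lattice `ℤ^d`, not contained
in a hyperplane, and `Δ` its convex hull. The projective toric variety `V` of `Δ`, of dimension `d`, is `Proj k[S]`, where `S` is the
monoid of the points `(m, l)` of `ℤ^d × ℕ` in the cone over `Δ × {1}` (`InCone`), graded by `l`. Every projective toric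
variety is of this form. `v_1, ..., v_r` are the inner normal vectors of the facets of `Δ` (`IsFacet`, `HasFacets`).

`A_0, ..., A_s` are finite sets of points of the lattice whose convex hulls `Δ_j` have the same normal fan as `Δ` (`SameFan`): the lattice polytopes
with this property correspond to the ample Cartier divisors `D_j` of `V` (up to linear equivalence), and the `x^m`, `m ∈ A_j`, are sections of
`O_V(D_j)`. `X` is the common zero set in `V` of the sections `∑_(m ∈ A_j) c_(j,m) x^m`, `j = 0, ..., s`: the intersection of `s + 1` arbitrary members of the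
linear systems spanned by the `x^m`. The coefficients are arbitrary: `X` may be singular, reducible, nonreduced, of too large dimension.

The products of the section of `O_V(D_j)` with the sections `x^(m')` of `O_V(lD - D_j)`, `D` the divisor of `Δ`, are the elements
`∑_m c_(j,m) x^(m + m')` of degree `l` of `k[S]`, for all `m'` such that all `(m + m', l)` are in the cone; for large `l` the divisor `lD - D_j` is
generated by its sections, so these elements define the zero set of the section. So the points of `X` (`IsPoint`) are given by the maps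
`ζ` of monoids from `S` to the multiplicative monoid `k`, that is the points of the cone over `V`, which map these elements to `0` and are not the vertex of the cone
(`ζ(b, 1) ≠ 0` for some `b ∈ B`). Points with different ratios of the numbers `ζ(b, 1)` are different, and a nonconstant curve has nonconstant
ratios, because the map from `V` to the projective space with the coordinates `x^b`, `b ∈ B`, is finite. A rational curve on `X` (`IsRationalCurve`) is given by polynomials
`z(m, l)` in `t` whose values at every `t` are a point of `X`, not always the same: it is a nonconstant morphism from the affine line to `X`. For `k = ℂ` an entire curve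
(`IsEntireCurve`) is given by entire functions instead.

`K_V = -∑ E_i` and `D_j ~ ∑ h_j(v_i) E_i`, where `E_i` is the prime divisor of `v_i` (if the `v_i` are primitive) and `h_j(u)` (`support`) is minus the minimum of `⟨., u⟩`
on `A_j`. The sections of `N (K_V + ∑ D_j)` are the `x^u`, `⟨u, v_i⟩ + N ∑_j h_j(v_i) ≥ N` for all `i`; the class `K_V + ∑ D_j` is big if and only
if there are `N > 0` and `u ∈ ℤ^d` with `⟨u, v_i⟩ + N ∑_j h_j(v_i) > N` for all `i`.

**Limits** (`IsLimit`). Let `X` be as above over an algebraically closed field `L` of characteristic zero. Let `y_0, ..., y_n` be elements of `L[S]` of degrees `w_0, ..., w_n > 0`,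
without common zeros on `X`; they define a morphism from `X` to the weighted projective space `P(w)`. Let `R` be a valuation ring of `L` and `φ` a local homomorphism of `R` to
a field `k` (a place of `L`). A set `T` of polynomials over `k` defines a limit of `X` if each of its elements is the image under `φ` of a weighted homogeneous polynomial
over `R` which vanishes on the image of `X` in `P(w)`: so the common zero set of `T` contains the specialisation of this image at the place. For example, let `(X_t)` be a family of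
projective varieties over a smooth curve, with `X` as its geometric generic fibre, and with a relatively ample line bundle `H` whose restriction to `X` is the
restriction of an ample line bundle of `V`. Then all fibres `X_0`, embedded by a multiple of `H`, are limits of `X` (`Δ` is the polytope of this line bundle of `V`; `R` is a valuation ring
above the local ring of the curve). `k` may have positive characteristic.

**Theorem (`result`).** Let `d ≥ s + 4`, so that all components of `X` have dimension `≥ 3`. Suppose that there are no `N > 0` and `u ∈ ℤ^d` with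
`⟨u, v_i⟩ + N ∑_j h_j(v_i) > N` for all `i` (`K_V + ∑ D_j` is not big). In particular this holds if for some `u₀ ∈ ℤ^d` all
`⟨u₀, v_i⟩ + ∑_j h_j(v_i) ≤ 1` (`K_V + ∑ D_j ≤ 0`), for instance if `K_V + ∑ D_j = 0` (Calabi-Yau complete intersections of ample divisors) or if
`-(K_V + ∑ D_j)` is effective. Then:

1. `X` contains a rational curve.
2. If `k = ℂ` there is a nonconstant holomorphic map from `ℂ` to `X`: `X` is not hyperbolic.
3. Every limit `X_0` of such an `X` contains a rational curve.
4. If `k = ℂ` there is a nonconstant holomorphic map from `ℂ` to every limit `X_0` of such an `X`.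

Method. (A) It is enough to treat one system whose coefficients are algebraically independent: specialise it to the given one over a valuation ring and change the
parameter of the curve such that the limit is not constant. (B) For a minimal relation `∑ a_i v_i = 0`, `a_i ≥ 0`, `∑ a_i (∑_j h_j(v_i) - 1) ≤ 0` (theorem of the
alternative), `N = ∑ a_i`, consider the curves `x ∏ p_i(t)^(v_i)`, `deg p_i ≤ a_i`, `p_i(0) = 1`. Through a general point `x` of `X` passes one on which the equations
`1, ..., s` vanish identically and which meets `D_0` in at most two points. If `X` contains no rational curve then almost all of these curves pass through one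
fixed point or have a base point (bend and break for curves with two points on an ample divisor). The determinant of the differential of the family
is divisible by a minor of the Jacobian matrix of the equations `1, ..., s` on the curve, because the generic system is nondegenerate on all faces; the quotient `D` is a
polynomial, it is divisible by `t^(ν - 1)`, `ν` the order of contact at `x`, it is not zero, and its degree is at most `ν - 2` because of the fixed point: a contradiction.
(C) If the order of contact is `0` (all `D_j` of degree `1` on the curves) the generic system has a curve with all `p_i` of degree `1`.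
-/

set_option autoImplicit false

namespace Pool.Agent.Results.MP_1e3e9c_ag.ToricCompleteIntersections

open Polynomial

/-- The pairing `⟨m, u⟩` of a point of the lattice `ℤ^d` and a vector of the dual lattice. -/
def pairing {d : ℕ} (m u : Fin d → ℤ) : ℤ := ∑ j, m j * u j

/-- `A` is not contained in an affine hyperplane. -/
def FullDimensional {d : ℕ} (A : Finset (Fin d → ℤ)) : Prop :=
  ∀ u : Fin d → ℤ, u ≠ 0 → ∃ m ∈ A, ∃ m' ∈ A, pairing m u ≠ pairing m' u

/-- `(m, l)` is in the cone over `B × {1}`: a positive multiple of it is a sum of elements `(b, 1)`, `b ∈ B`. -/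
def InCone {d : ℕ} (B : Finset (Fin d → ℤ)) (m : Fin d → ℤ) (l : ℕ) : Prop :=
  ∃ (N : ℕ) (n : (Fin d → ℤ) → ℕ), 0 < N ∧ ∑ b ∈ B, n b = N * l ∧
    ∀ j, ∑ b ∈ B, (n b : ℤ) * b j = N * m j

/-- The support function: `support A u` is the maximum of `-⟨m, u⟩`, `m ∈ A` (`0` if `A` is empty). -/
noncomputable def support {d : ℕ} (A : Finset (Fin d → ℤ)) (u : Fin d → ℤ) : ℤ :=
  if h : A.Nonempty then A.sup' h (fun m => - pairing m u) else 0

/-- `m` is a point of `A` where `⟨., u⟩` is minimal: it is on the face of the convex hull of `A` in the direction `u`. -/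
def OnFace {d : ℕ} (A : Finset (Fin d → ℤ)) (u m : Fin d → ℤ) : Prop :=
  m ∈ A ∧ pairing m u + support A u = 0

/-- The normal fan of `A` is a refinement of that of `A'`: for every point of `A` there is a point of `A'` on all the corresponding faces. -/
def Refines {d : ℕ} (A A' : Finset (Fin d → ℤ)) : Prop :=
  ∀ m ∈ A, ∃ m' ∈ A', ∀ u, OnFace A u m → OnFace A' u m'

/-- The normal fans of the convex hulls of `A` and `A'` are equal. -/
def SameFan {d : ℕ} (A A' : Finset (Fin d → ℤ)) : Prop :=
  Refines A A' ∧ Refines A' A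

/-- The face in the direction `v` is a facet: the vectors `w` such that `⟨., w⟩` is constant on it are multiples of `v`. -/
def IsFacet {d : ℕ} (B : Finset (Fin d → ℤ)) (v : Fin d → ℤ) : Prop :=
  v ≠ 0 ∧ ∀ w : Fin d → ℤ, (∀ m m', OnFace B v m → OnFace B v m' → pairing m w = pairing m' w) →
    ∃ a b : ℤ, a ≠ 0 ∧ a • w = b • v

/-- The convex hull `Δ` of `B` is the set of the points with `⟨., v_i⟩ ≥ - support B (v i)` for all `i` (for the points `u / N`, `u ∈ ℤ^d`). -/
def HasFacets {d r : ℕ} (B : Finset (Fin d → ℤ)) (v : Fin r → Fin d → ℤ) : Prop :=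
  ∀ (N : ℕ) (u : Fin d → ℤ), 0 < N → (∀ i, 0 ≤ pairing u (v i) + N * support B (v i)) →
    InCone B u N

/-- `ζ` is a point of the common zero set `X` of the sections `∑_(m ∈ A_j) c_(j,m) x^m` in the toric variety of `B`: the numbers `ζ(m, l)` define a homomorphism from
the monoid of the cone over `B × {1}` to `k` which satisfies the equations, and some `ζ(b, 1)`, `b ∈ B`, is not `0`. -/
structure IsPoint {k : Type} [Field k] {d s : ℕ} (B : Finset (Fin d → ℤ))
    (A : Fin (s + 1) → Finset (Fin d → ℤ))
    (c : Fin (s + 1) → (Fin d → ℤ) → k) (ζ : (Fin d → ℤ) → ℕ → k) : Prop where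
  one : ζ 0 0 = 1
  mul : ∀ m l m' l', InCone B m l → InCone B m' l' → ζ (m + m') (l + l') = ζ m l * ζ m' l'
  equation : ∀ j m' l, (∀ m ∈ A j, InCone B (m + m') l) → ∑ m ∈ A j, c j m * ζ (m + m') l = 0
  nonzero : ∃ b ∈ B, ζ b 1 ≠ 0

/-- `z` is a (nonconstant) rational curve on `X`: the values of the polynomials `z(m, l)` at every `t` are a point of `X`, and for two values of `t` the
points are different. -/
structure IsRationalCurve {k : Type} [Field k] {d s : ℕ} (B : Finset (Fin d → ℤ))
    (A : Fin (s + 1) → Finset (Fin d → ℤ))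
    (c : Fin (s + 1) → (Fin d → ℤ) → k) (z : (Fin d → ℤ) → ℕ → k[X]) : Prop where
  point : ∀ t : k, IsPoint B A c fun m l => (z m l).eval t
  nonconstant : ∃ b ∈ B, ∃ b' ∈ B, ∃ t t' : k,
    (z b 1).eval t * (z b' 1).eval t' ≠ (z b 1).eval t' * (z b' 1).eval t

/-- `f` is a nonconstant holomorphic map from `ℂ` to `X`: the coordinates `f(t)(m, l)` are entire functions of `t`, `f(t)` is a point of `X` for every `t`, and for two values
of `t` the points are different. -/
structure IsEntireCurve {d s : ℕ} (B : Finset (Fin d → ℤ)) (A : Fin (s + 1) → Finset (Fin d → ℤ))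
    (c : Fin (s + 1) → (Fin d → ℤ) → ℂ) (f : ℂ → (Fin d → ℤ) → ℕ → ℂ) : Prop where
  holomorphic : ∀ m l, Differentiable ℂ fun t => f t m l
  point : ∀ t, IsPoint B A c (f t)
  nonconstant : ∃ b ∈ B, ∃ b' ∈ B, ∃ t t' : ℂ, f t b 1 * f t' b' 1 ≠ f t' b 1 * f t b' 1

/-- `x` and `y` are coordinates of the same point of the weighted projective space `P(w)`. -/
def Same {k : Type} [Field k] {n : ℕ} (w : Fin (n + 1) → ℕ) (x y : Fin (n + 1) → k) : Prop :=
  ∃ a : k, a ≠ 0 ∧ ∀ i, y i = a ^ w i * x i

/-- The value at `t` of a tuple of polynomials. -/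
noncomputable def value {k : Type} [Field k] {n : ℕ} (p : Fin (n + 1) → k[X]) (t : k) :
    Fin (n + 1) → k :=
  fun i => (p i).eval t

/-- There is a nonconstant rational curve in the common zero set in `P(w)` of the elements of `T`. -/
def HasRationalCurve {k : Type} [Field k] {n : ℕ} (w : Fin (n + 1) → ℕ)
    (T : Set (MvPolynomial (Fin (n + 1)) k)) : Prop :=
  ∃ p : Fin (n + 1) → k[X], (∀ t, ∀ Q ∈ T, MvPolynomial.eval (value p t) Q = 0) ∧
    ∃ t t', value p t ≠ 0 ∧ value p t' ≠ 0 ∧ ¬ Same w (value p t) (value p t')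

/-- The map from `ℂ` to `P(w)` with the coordinates `F z` is holomorphic: locally, after a substitution
`z = z₀ + u^m`, the coordinates can be chosen holomorphic. -/
def Holomorphic {n : ℕ} (w : Fin (n + 1) → ℕ) (F : ℂ → Fin (n + 1) → ℂ) : Prop :=
  ∀ z₀ : ℂ, ∃ m : ℕ, 0 < m ∧ ∃ φ : ℂ → Fin (n + 1) → ℂ, AnalyticAt ℂ φ 0 ∧ φ 0 ≠ 0 ∧
    ∀ᶠ u in nhds (0 : ℂ), Same w (φ u) (F (z₀ + u ^ m))

/-- There is a nonconstant holomorphic map from `ℂ` to the common zero set in `P(w)` of the elements of `T`. -/
def HasEntireCurve {n : ℕ} (w : Fin (n + 1) → ℕ) (T : Set (MvPolynomial (Fin (n + 1)) ℂ)) : Prop :=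
  ∃ F : ℂ → Fin (n + 1) → ℂ, (∀ z, F z ≠ 0) ∧ Holomorphic w F ∧
    (∀ z, ∀ Q ∈ T, MvPolynomial.eval (F z) Q = 0) ∧ ∃ z, ¬ Same w (F 0) (F z)

/-- The value at the point `ζ` of the element `∑ y_m x^m` of degree `l` of `k[S]`. -/
noncomputable def formValue {k : Type} [Field k] {d : ℕ} (y : (Fin d → ℤ) →₀ k) (l : ℕ)
    (ζ : (Fin d → ℤ) → ℕ → k) : k :=
  y.sum fun m a => a * ζ m l

/-- The elements `y_i` of degree `w_i > 0` of `L[S]` have no common zero on `X`: they define a morphism from `X` to `P(w)`. -/
def IsMorphism {L : Type} [Field L] {d s n : ℕ} (B : Finset (Fin d → ℤ))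
    (A : Fin (s + 1) → Finset (Fin d → ℤ)) (c : Fin (s + 1) → (Fin d → ℤ) → L)
    (w : Fin (n + 1) → ℕ) (y : Fin (n + 1) → (Fin d → ℤ) →₀ L) : Prop :=
  (∀ i, 0 < w i ∧ ∀ m ∈ (y i).support, InCone B m (w i)) ∧
    ∀ ζ, IsPoint B A c ζ → ∃ i, formValue (y i) (w i) ζ ≠ 0

/-- The common zero set of `T` in `P(w)` (over `k`) is a limit of `X` (over `L`): for a morphism from `X` to `P(w)`, a valuation ring `R` of `L` and a local homomorphism `φ` of
`R` to `k`, all elements of `T` are images of weighted homogeneous polynomials over `R` which vanish on the image of `X`. -/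
def IsLimit {L k : Type} [Field L] [Field k] {d s n : ℕ} (B : Finset (Fin d → ℤ))
    (A : Fin (s + 1) → Finset (Fin d → ℤ)) (c : Fin (s + 1) → (Fin d → ℤ) → L)
    (w : Fin (n + 1) → ℕ) (T : Set (MvPolynomial (Fin (n + 1)) k)) : Prop :=
  ∃ y : Fin (n + 1) → (Fin d → ℤ) →₀ L, IsMorphism B A c w y ∧
    ∃ (R : ValuationSubring L) (φ : R →+* k), (∀ a, φ a ≠ 0 → IsUnit a) ∧
      ∀ Q ∈ T, ∃ (P : MvPolynomial (Fin (n + 1)) R) (m : ℕ), P.IsWeightedHomogeneous w m ∧
        (∀ ζ, IsPoint B A c ζ → MvPolynomial.eval (fun i => formValue (y i) (w i) ζ)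
          (MvPolynomial.map (algebraMap R L) P) = 0) ∧ MvPolynomial.map φ P = Q

private theorem of_cv {k : Type} [Field k] [IsAlgClosed k] {d s : ℕ} {B : Finset (Fin d → ℤ)}
    {A : Fin (s + 1) → Finset (Fin d → ℤ)} {c : Fin (s + 1) → (Fin d → ℤ) → k}
    (h : ∃ z, Pool.Agent.Lib.MP_1e3e9c_agY.IsCv B A c z) : ∃ z, IsRationalCurve B A c z := by
  obtain ⟨z, hz⟩ := h
  obtain ⟨z', hP, ⟨b, hb, b', hb', i, j, hij⟩, hu⟩ := hz.toP
  have : Infinite k := IsAlgClosed.instInfinite
  refine ⟨z', fun t => ⟨by rw [hP.one, eval_one], fun m l m' l' h1 h2 => ?_,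
    fun j m' l h1 => ?_, ?_⟩, b, hb, b', hb', ?_⟩
  · rw [hP.mul m l m' l' h1 h2, eval_mul]
  · have h2 := congrArg (fun P => P.eval t) (hP.eq j m' l h1)
    simpa only [eval_finsetSum, eval_mul, eval_C, eval_zero] using h2
  · by_contra hcon
    push Not at hcon
    exact not_isUnit_X_sub_C t (hu (X - C t) fun b hb => dvd_iff_isRoot.2 (hcon b hb))
  · by_contra hcon
    push Not at hcon
    have h0 : z' b' 1 ≠ 0 := by
      intro h0
      rw [h0] at hij
      simp at hij
    obtain ⟨t', ht'⟩ : ∃ t', (z' b' 1).eval t' ≠ 0 := by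
      by_contra hc
      push Not at hc
      exact h0 (Polynomial.funext fun t => by rw [hc t, eval_zero])
    have h1 : z' b 1 * C ((z' b' 1).eval t') = C ((z' b 1).eval t') * z' b' 1 :=
      Polynomial.funext fun t => by
        rw [eval_mul, eval_mul, eval_C, eval_C]
        exact hcon t t'
    have h2 : ∀ n, (z' b 1).coeff n * (z' b' 1).eval t' =
        (z' b 1).eval t' * (z' b' 1).coeff n := fun n => by
      have := congrArg (fun P => P.coeff n) h1
      simpa only [coeff_mul_C, coeff_C_mul] using this
    refine hij (mul_right_cancel₀ ht' ?_)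
    have e1 := h2 i
    have e2 := h2 j
    calc (z' b 1).coeff i * (z' b' 1).coeff j * (z' b' 1).eval t'
        = (z' b 1).coeff i * (z' b' 1).eval t' * (z' b' 1).coeff j := by ring
      _ = (z' b 1).eval t' * (z' b' 1).coeff i * (z' b' 1).coeff j := by rw [e1]
      _ = (z' b 1).eval t' * (z' b' 1).coeff j * (z' b' 1).coeff i := by ring
      _ = (z' b 1).coeff j * (z' b' 1).eval t' * (z' b' 1).coeff i := by rw [← e2]
      _ = (z' b 1).coeff j * (z' b' 1).coeff i * (z' b' 1).eval t' := by ring

private theorem entire_of {d s : ℕ} {B : Finset (Fin d → ℤ)}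
    {A : Fin (s + 1) → Finset (Fin d → ℤ)} {c : Fin (s + 1) → (Fin d → ℤ) → ℂ}
    {z : (Fin d → ℤ) → ℕ → ℂ[X]} (h : IsRationalCurve B A c z) :
    IsEntireCurve B A c fun t m l => (z m l).eval t := by
  refine ⟨fun m l => (z m l).differentiable, h.point, ?_⟩
  obtain ⟨b, hb, b', hb', t, t', htt⟩ := h.nonconstant
  exact ⟨b, hb, b', hb', t, t', htt⟩

private theorem limit_hasRat {L k : Type} [Field L] [IsAlgClosed L] [Field k] {d s : ℕ}
    {B : Finset (Fin d → ℤ)} {A : Fin (s + 1) → Finset (Fin d → ℤ)}
    {c : Fin (s + 1) → (Fin d → ℤ) → L}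
    (h : ∃ z, Pool.Agent.Lib.MP_1e3e9c_agY.IsCv B A c z) {n : ℕ} {w : Fin (n + 1) → ℕ}
    {T : Set (MvPolynomial (Fin (n + 1)) k)} (hT : IsLimit B A c w T) :
    Pool.Agent.Lib.MP_1e3e9c_agR.HasRat w T := by
  obtain ⟨y, ⟨hw, hy⟩, R, φ, hφ, hT⟩ := hT
  have hpt : ∀ ζ, Pool.Agent.Lib.MP_1e3e9c_agY.IsPt B A c ζ → IsPoint B A c ζ := fun ζ h =>
    ⟨h.one, h.mul, h.eq, h.ne⟩
  refine Pool.Agent.Lib.MP_1e3e9c_agY.limit_forms h (fun i => (hw i).1)
    (fun ζ h => hy ζ (hpt ζ h)) R φ hφ fun Q hQ => ?_
  obtain ⟨P, m, hm, hP, hPQ⟩ := hT Q hQ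
  exact ⟨P, m, hm, fun ζ h => hP ζ (hpt ζ h), hPQ⟩

theorem result (d s : ℕ) (hd : s + 4 ≤ d) (B : Finset (Fin d → ℤ)) (hB : FullDimensional B)
    (A : Fin (s + 1) → Finset (Fin d → ℤ)) (hA : ∀ j, SameFan (A j) B)
    (r : ℕ) (v : Fin r → Fin d → ℤ) (hv : ∀ i, IsFacet B (v i)) (hvB : HasFacets B v)
    -- `K_V + ∑ D_j` is not big, or `K_V + ∑ D_j ≤ 0`
    (h : (¬ ∃ (N : ℕ) (u : Fin d → ℤ), 0 < N ∧
        ∀ i, (N : ℤ) < pairing u (v i) + N * ∑ j, support (A j) (v i)) ∨
      ∃ u₀ : Fin d → ℤ, ∀ i, pairing u₀ (v i) + ∑ j, support (A j) (v i) ≤ 1) :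
    -- (1) rational curves on `X`
    (∀ (k : Type) [Field k] [IsAlgClosed k] [CharZero k] (c : Fin (s + 1) → (Fin d → ℤ) → k),
      ∃ z, IsRationalCurve B A c z) ∧
    -- (2) holomorphic maps to `X`
    (∀ c : Fin (s + 1) → (Fin d → ℤ) → ℂ, ∃ f, IsEntireCurve B A c f) ∧
    -- (3) rational curves on the limits of `X`
    (∀ (L k : Type) [Field L] [IsAlgClosed L] [CharZero L] [Field k]
      (c : Fin (s + 1) → (Fin d → ℤ) → L) (n : ℕ) (w : Fin (n + 1) → ℕ)
      (T : Set (MvPolynomial (Fin (n + 1)) k)), IsLimit B A c w T → HasRationalCurve w T) ∧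
    -- (4) holomorphic maps to the limits of `X`
    ∀ (L : Type) [Field L] [IsAlgClosed L] [CharZero L]
      (c : Fin (s + 1) → (Fin d → ℤ) → L) (n : ℕ) (w : Fin (n + 1) → ℕ)
      (T : Set (MvPolynomial (Fin (n + 1)) ℂ)), IsLimit B A c w T → HasEntireCurve w T := by
  have h1 : ¬ ∃ (N : ℕ) (u : Fin d → ℤ), 0 < N ∧
      ∀ i, (N : ℤ) < pairing u (v i) + N * ∑ j, support (A j) (v i) := by
    rcases h with h | ⟨u₀, h2⟩
    · exact h
    · rintro ⟨N, u, _, hu⟩
      exact Pool.Agent.Lib.MP_1e3e9c_agY.not_big_of_le (by omega) hB hvB (fun i => (hv i).1) h2 hu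
  have key : ∀ (k : Type) [Field k] [IsAlgClosed k] [CharZero k]
      (c : Fin (s + 1) → (Fin d → ℤ) → k),
      ∃ z, Pool.Agent.Lib.MP_1e3e9c_agY.IsCv B A c z := by
    intro k _ _ _ c
    exact Pool.Agent.Lib.MP_1e3e9c_agY.curve_of hd hB (fun j => (hA j).2)
      (fun j => (hA j).1) (v := v) hv hvB h1 c
  refine ⟨fun k _ _ _ c => of_cv (key k c), fun c => ?_, fun L k _ _ _ _ c n w T hT => ?_,
    fun L _ _ _ c n w T hT => ?_⟩
  · obtain ⟨z, hz⟩ := of_cv (key ℂ c)
    exact ⟨_, entire_of hz⟩
  · exact limit_hasRat (key L c) hT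
  · have h3 := limit_hasRat (key L c) hT
    obtain ⟨y, ⟨hw, hy⟩, R, φ, hφ, hT⟩ := hT
    refine Pool.Agent.Lib.MP_1e3e9c_agR.hol_of_rat (fun i => (hw i).1) (fun Q hQ => ?_) h3
    obtain ⟨P, m, hm, -, rfl⟩ := hT Q hQ
    refine ⟨m, fun e he => hm fun h0 => he ?_⟩
    rw [MvPolynomial.coeff_map, h0, map_zero]

end Pool.Agent.Results.MP_1e3e9c_ag.ToricCompleteIntersections
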