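import Pool.Agent.Lib.MP_1e3e9c_ag.TV.Main

/-!
# Hyperbolic complete intersections in smooth projective toric varieties

`V` is a smooth projective toric variety over an algebraically closed field `k` of any
characteristic, given by its Cox data `T` (`ToricData`): homogeneous coordinates indexed by `ι`, the
class group `G`, the degrees of the coordinates, and the charts (complements of the maximal cones).
`X` is the common zero locus in `V` of sections `F j` of ample classes `D j`, `j < c`; it may be
singular.  `n = dim V - c`.  If every morphism from the affine line to `X` is constant (for `k = ℂ`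
this holds if `X` is Kobayashi hyperbolic), then `K_V + ∑ D j`, which restricts to `K_X`, has the
intersection number at least `n - 2` with every torus invariant curve, and it is ample if `n ≥ 3`.
-/

set_option autoImplicit false

namespace Pool.Agent.Results.MP_1e3e9c_ag.ToricIntersections

open Polynomial Pool.Agent.Lib.MP_1e3e9c_ag.TV

variable {k ι G : Type} [Field k] [Fintype ι] [DecidableEq ι] [AddCommGroup G]

/-- `x` is the vector of the homogeneous coordinates of a point of `V`: for some chart the
coordinates in this chart are not zero. -/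
def IsPoint (T : ToricData ι G) (x : ι → k) : Prop :=
  ∃ J ∈ T.charts, ∀ i ∈ J, x i ≠ 0

/-- `x` and `x'` are coordinate vectors of the same point: they differ by an element of the torus
`Hom(G, k*)`. -/
def SamePoint (T : ToricData ι G) (x x' : ι → k) : Prop :=
  ∃ χ : Multiplicative G →* kˣ, ∀ i, x' i = (χ (Multiplicative.ofAdd (T.deg i)) : k) * x i

/-- Every morphism from the affine line to the common zero locus `X` of the `F j` in `V` (given by
polynomials `Q i` in the homogeneous coordinates) is constant. -/
def NoLine {J : Type} (T : ToricData ι G) (F : J → MvPolynomial ι k) : Prop :=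
  ∀ Q : ι → k[X], (∀ j, MvPolynomial.aeval Q (F j) = 0) →
    (∀ t : k, IsPoint T (fun i => (Q i).eval t)) →
    ∀ s t : k, SamePoint T (fun i => (Q i).eval s) (fun i => (Q i).eval t)

/-- **Theorem.** -/
theorem result [IsAlgClosed k] (T : ToricData ι G) (c : ℕ) (D : Fin c → G)
    (hD : ∀ j, IsAmple T.deg T.charts (D j))
    (F : Fin c → MvPolynomial ι k) (hF : ∀ j, (F j).IsWeightedHomogeneous T.deg (D j))
    (hX : NoLine T F) (n : ℤ)
    (hn : ∀ J ∈ T.charts, n = (Fintype.card ι : ℤ) - J.card - c) :
    (∀ (J : Finset ι) (ρ i : ι), T.IsWall J ρ i → n - 2 ≤ T.co J (T.K + ∑ j, D j) ρ) ∧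
      (3 ≤ n → IsAmple T.deg T.charts (T.K + ∑ j, D j)) := by
  have main : ∀ (J : Finset ι) (ρ i : ι), T.IsWall J ρ i →
      n - 2 ≤ T.co J (T.K + ∑ j, D j) ρ := by
    intro J ρ i hW
    by_contra hlt
    have hcount : T.co J (T.K + ∑ j, D j) ρ ≤ (Fintype.card ι : ℤ) - J.card - c - 3 := by
      rw [← hn J hW.1]
      omega
    obtain ⟨Q, hQ, hC, hpt⟩ := exists_curve T c D hD F hF J ρ i hW hcount
    have hsame := hX Q hQ hpt
    obtain ⟨m, m', hdeg, hne, hnc⟩ := hC.nonconst
    obtain ⟨s, hs⟩ : ∃ s : k, (∏ i, Q i ^ m' i).eval s ≠ 0 := by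
      by_contra hall
      push Not at hall
      exact hne (Polynomial.funext (fun t => by rw [hall t, Polynomial.eval_zero]))
    apply hnc ((∏ i, Q i ^ m i).eval s / (∏ i, Q i ^ m' i).eval s)
    apply Polynomial.funext
    intro t
    obtain ⟨χ, hχ⟩ := hsame s t
    have key : ∀ a : ι → ℕ, (∏ i, Q i ^ a i).eval t
        = (χ (Multiplicative.ofAdd (∑ i, a i • T.deg i)) : k) * (∏ i, Q i ^ a i).eval s := by
      intro a
      rw [Polynomial.eval_prod, Polynomial.eval_prod, ofAdd_sum, map_prod, Units.coe_prod,
        ← Finset.prod_mul_distrib]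
      refine Finset.prod_congr rfl fun i _ => ?_
      rw [Polynomial.eval_pow, Polynomial.eval_pow, ofAdd_nsmul, map_pow, Units.val_pow_eq_pow_val,
        ← mul_pow]
      congr 1
      exact hχ i
    rw [Polynomial.eval_mul, Polynomial.eval_C, key m, key m', hdeg]
    field_simp
  refine ⟨main, fun h3 => kleiman T _ fun J ρ i hW => ?_⟩
  have := main J ρ i hW
  omega

end Pool.Agent.Results.MP_1e3e9c_ag.ToricIntersections
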